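import Mathlib
import Pool.Agent.X83.DA.Stm

set_option autoImplicit false
set_option maxHeartbeats 4000000

namespace Pool.Agent.X231.DA

open MeasureTheory Set Filter Topology RealInnerProductSpace Pool.Agent.X83.DA

theorem dq {H : Type*} [NormedAddCommGroup H] [InnerProductSpace ℝ H] [CompleteSpace H]
    {D : Submodule ℝ H} {A : D →ₗ[ℝ] H} {b : ℝ} (hA : SA D A b) {Z R W : ℝ → H}
    (hW : Continuous W) (hZ : ∀ s, HasDerivAt Z (R s) s)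
    (hD : ∀ s, ∃ h : Z s ∈ D, A ⟨Z s, h⟩ = W s) (s : ℝ) :
    HasDerivAt (fun t => ⟪W t, Z t⟫) (2 * ⟪W s, R s⟫) s := by
  have hsym : ∀ t u, ⟪W t, Z u⟫ = ⟪W u, Z t⟫ := by
    intro t u
    obtain ⟨ht, hwt⟩ := hD t
    obtain ⟨hu, hwu⟩ := hD u
    have := hA.sym ⟨Z t, ht⟩ ⟨Z u, hu⟩
    rw [hwt, hwu] at this
    rw [real_inner_comm (Z t) (W u)]
    exact this
  rw [hasDerivAt_iff_tendsto_slope]
  have h1 := (hasDerivAt_iff_tendsto_slope.1 (hZ s))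
  have h2 : Tendsto (fun t => W t + W s) (𝓝[≠] s) (𝓝 (W s + W s)) :=
    ((hW.tendsto s).mono_left nhdsWithin_le_nhds).add tendsto_const_nhds
  have h3 := Filter.Tendsto.inner (𝕜 := ℝ) h2 h1
  have h4 : ⟪W s + W s, R s⟫ = 2 * ⟪W s, R s⟫ := by rw [inner_add_left]; ring
  rw [h4] at h3
  refine h3.congr ?_
  intro t
  simp only [slope, vsub_eq_sub, smul_eq_mul]
  rw [inner_smul_right, inner_sub_right, inner_add_left, inner_add_left, hsym t s]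
  ring

theorem scal {b c1 c2 ε c r z y q x u v : ℝ} (hb : 0 < b) (hc1 : 0 < c1) (hc2 : c1 ≤ c2)
    (hε : 0 < ε) (hε3 : ε * (2 + 2 * c2 ^ 2 / b) ≤ c1 / 2) (h1 : c1 ≤ c) (h2 : c ≤ c2)
    (hr : 0 ≤ r) (hz : 0 ≤ z) (hy : 0 ≤ y) (hq : b * z ^ 2 ≤ q) (hx : |x| ≤ z * r)
    (hu : u ≤ r * y) (hv : v ≤ z * y) :
    -2 * c * r ^ 2 + 2 * u + 2 * ε * (-c * x - q + v + r ^ 2) ≤
      -ε * (r ^ 2 + q) + (1 / c1 + 2 * ε / b) * y ^ 2 := by
  have a1 : 2 * (r * y) ≤ c1 * r ^ 2 + (1 / c1) * y ^ 2 := by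
    have : 0 ≤ c1 * (r - y / c1) ^ 2 := by positivity
    have e : c1 * (r - y / c1) ^ 2 = c1 * r ^ 2 - 2 * (r * y) + (1 / c1) * y ^ 2 := by
      field_simp
      ring
    linarith
  have a2 : 2 * (z * y) ≤ b / 2 * z ^ 2 + 2 / b * y ^ 2 := by
    have : 0 ≤ b / 2 * (z - 2 * y / b) ^ 2 := by positivity
    have e : b / 2 * (z - 2 * y / b) ^ 2 = b / 2 * z ^ 2 - 2 * (z * y) + 2 / b * y ^ 2 := by
      field_simp
      ring
    linarith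
  have a3 : 2 * c2 * (z * r) ≤ b / 2 * z ^ 2 + 2 * c2 ^ 2 / b * r ^ 2 := by
    have : 0 ≤ b / 2 * (z - 2 * c2 * r / b) ^ 2 := by positivity
    have e : b / 2 * (z - 2 * c2 * r / b) ^ 2 =
        b / 2 * z ^ 2 - 2 * c2 * (z * r) + 2 * c2 ^ 2 / b * r ^ 2 := by
      field_simp
      ring
    linarith
  have a4 : -c * x ≤ c2 * (z * r) := by
    have h3 : -x ≤ z * r := le_trans (neg_le_abs x) hx
    have h4 : 0 ≤ z * r := by positivity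
    calc -c * x = c * (-x) := by ring
      _ ≤ c * (z * r) := mul_le_mul_of_nonneg_left h3 (by linarith)
      _ ≤ c2 * (z * r) := mul_le_mul_of_nonneg_right h2 h4
  have a5 : c1 * r ^ 2 ≤ c * r ^ 2 := mul_le_mul_of_nonneg_right h1 (by positivity)
  have a6 : 2 * ε * (-c * x - q + v + r ^ 2) ≤
      ε * (b * z ^ 2 + 2 * c2 ^ 2 / b * r ^ 2 + 2 / b * y ^ 2 - 2 * q + 2 * r ^ 2) := by
    have : 2 * (-c * x - q + v + r ^ 2) ≤
      b * z ^ 2 + 2 * c2 ^ 2 / b * r ^ 2 + 2 / b * y ^ 2 - 2 * q + 2 * r ^ 2 := by linarith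
    calc 2 * ε * (-c * x - q + v + r ^ 2) = ε * (2 * (-c * x - q + v + r ^ 2)) := by ring
      _ ≤ _ := mul_le_mul_of_nonneg_left this hε.le
  have a7 : ε * (b * z ^ 2) ≤ ε * q := mul_le_mul_of_nonneg_left hq hε.le
  have a8 : ε * (2 + 2 * c2 ^ 2 / b) * r ^ 2 ≤ c1 / 2 * r ^ 2 :=
    mul_le_mul_of_nonneg_right hε3 (by positivity)
  have a9 : ε * r ^ 2 ≤ c1 / 2 * r ^ 2 := by
    apply mul_le_mul_of_nonneg_right _ (by positivity)
    have : 0 ≤ 2 * c2 ^ 2 / b := by positivity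
    nlinarith
  have e1 : ε * (b * z ^ 2 + 2 * c2 ^ 2 / b * r ^ 2 + 2 / b * y ^ 2 - 2 * q + 2 * r ^ 2) =
      ε * (b * z ^ 2) + ε * (2 + 2 * c2 ^ 2 / b) * r ^ 2 + 2 * ε / b * y ^ 2 - 2 * (ε * q) := by
    ring
  nlinarith

theorem t (H : Type*) [NormedAddCommGroup H] [InnerProductSpace ℝ H] [CompleteSpace H] :
    S_EN H := by
  intro b c1 c2 hb hc1 hc12
  have hc2 : 0 < c2 := by linarith
  have hden : 0 < 2 * (2 + 2 * c2 ^ 2 / b) := by positivity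
  obtain ⟨ε, hε, hεh, hεb, hε3⟩ : ∃ ε : ℝ, 0 < ε ∧ ε ≤ 1 / 2 ∧ ε ≤ b / 2 ∧
      ε * (2 + 2 * c2 ^ 2 / b) ≤ c1 / 2 := by
    refine ⟨min (min (1 / 2) (b / 2)) (c1 / (2 * (2 + 2 * c2 ^ 2 / b))), ?_, ?_, ?_, ?_⟩
    · have : 0 < c1 / (2 * (2 + 2 * c2 ^ 2 / b)) := by positivity
      exact lt_min (lt_min (by norm_num) (by linarith)) this
    · exact le_trans (min_le_left _ _) (min_le_left _ _)
    · exact le_trans (min_le_left _ _) (min_le_right _ _)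
    · have h := min_le_right (min (1 / 2) (b / 2)) (c1 / (2 * (2 + 2 * c2 ^ 2 / b)))
      calc _ ≤ c1 / (2 * (2 + 2 * c2 ^ 2 / b)) * (2 + 2 * c2 ^ 2 / b) :=
            mul_le_mul_of_nonneg_right h (by positivity)
        _ = c1 / 2 := by field_simp
  refine ⟨ε / 3, by positivity, ?_⟩
  intro γ hγ hγ0
  set K : ℝ := 1 / c1 + 2 * ε / b with hKdef
  have hK : 0 ≤ K := by positivity
  refine ⟨Real.sqrt ((3 + 2 * K / γ) * (1 + 1 / b)), Real.sqrt_nonneg _, ?_⟩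
  intro D A hA c hc Z R W g m hm hW hZ hR hD hg
  have hq : ∀ s, b * ‖Z s‖ ^ 2 ≤ ⟪W s, Z s⟫ := by
    intro s
    obtain ⟨h, hw⟩ := hD s
    have := hA.coer ⟨Z s, h⟩
    rw [hw] at this
    exact this
  set E : ℝ → ℝ := fun s => ‖R s‖ ^ 2 + ⟪W s, Z s⟫ + 2 * ε * ⟪Z s, R s⟫ with hE
  have hx : ∀ s, |⟪Z s, R s⟫| ≤ ‖Z s‖ * ‖R s‖ := fun s => abs_real_inner_le_norm _ _
  have hxx : ∀ s, |2 * ε * ⟪Z s, R s⟫| ≤ (‖R s‖ ^ 2 + ⟪W s, Z s⟫) / 2 := by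
    intro s
    rw [abs_mul, abs_of_pos (by positivity : 0 < 2 * ε)]
    have h1 : 2 * (‖Z s‖ * ‖R s‖) ≤ ‖Z s‖ ^ 2 + ‖R s‖ ^ 2 := by nlinarith [sq_nonneg (‖Z s‖ - ‖R s‖)]
    calc 2 * ε * |⟪Z s, R s⟫| ≤ 2 * ε * (‖Z s‖ * ‖R s‖) :=
          mul_le_mul_of_nonneg_left (hx s) (by positivity)
      _ = ε * (2 * (‖Z s‖ * ‖R s‖)) := by ring
      _ ≤ ε * (‖Z s‖ ^ 2 + ‖R s‖ ^ 2) := mul_le_mul_of_nonneg_left h1 hε.le
      _ = ε * ‖Z s‖ ^ 2 + ε * ‖R s‖ ^ 2 := by ring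
      _ ≤ b / 2 * ‖Z s‖ ^ 2 + 1 / 2 * ‖R s‖ ^ 2 := by
          gcongr
      _ ≤ (‖R s‖ ^ 2 + ⟪W s, Z s⟫) / 2 := by linarith [hq s]
  have hElow : ∀ s, (‖R s‖ ^ 2 + ⟪W s, Z s⟫) / 2 ≤ E s := by
    intro s
    have := neg_le_of_abs_le (hxx s)
    simp only [hE]; linarith
  have hEup : ∀ s, E s ≤ 3 / 2 * (‖R s‖ ^ 2 + ⟪W s, Z s⟫) := by
    intro s
    have := le_of_abs_le (hxx s)
    simp only [hE]; linarith
  have hq0 : ∀ s, 0 ≤ ⟪W s, Z s⟫ := fun s => le_trans (by positivity) (hq s)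
  have hE0 : ∀ s, 0 ≤ E s := fun s => le_trans (by have := hq0 s; positivity) (hElow s)
  have hdE : ∀ s, HasDerivAt E (2 * ⟪R s, -(c • R s) - W s + g s⟫ + 2 * ⟪W s, R s⟫ +
      2 * ε * (⟪Z s, -(c • R s) - W s + g s⟫ + ⟪R s, R s⟫)) s := by
    intro s
    have h1 := (hR s).norm_sq
    have h2 := dq hA hW hZ hD s
    have h3 := (HasDerivAt.inner ℝ (hZ s) (hR s)).const_mul (2 * ε)
    exact (h1.add h2).add h3
  have hdE' : ∀ s, 2 * ⟪R s, -(c • R s) - W s + g s⟫ + 2 * ⟪W s, R s⟫ +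
      2 * ε * (⟪Z s, -(c • R s) - W s + g s⟫ + ⟪R s, R s⟫) ≤
      -(2 * ε / 3) * E s + K * ‖g s‖ ^ 2 := by
    intro s
    have h := scal (r := ‖R s‖) (z := ‖Z s‖) (y := ‖g s‖) (q := ⟪W s, Z s⟫) (x := ⟪Z s, R s⟫)
      (u := ⟪R s, g s⟫) (v := ⟪Z s, g s⟫) hb hc1 hc12 hε hε3 hc.1 hc.2 (norm_nonneg _)
      (norm_nonneg _) (norm_nonneg _) (hq s) (hx s) (real_inner_le_norm _ _) (real_inner_le_norm _ _)
    have e1 : 2 * ⟪R s, -(c • R s) - W s + g s⟫ + 2 * ⟪W s, R s⟫ +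
      2 * ε * (⟪Z s, -(c • R s) - W s + g s⟫ + ⟪R s, R s⟫) =
      -2 * c * ‖R s‖ ^ 2 + 2 * ⟪R s, g s⟫ + 2 * ε * (-c * ⟪Z s, R s⟫ - ⟪W s, Z s⟫ +
        ⟪Z s, g s⟫ + ‖R s‖ ^ 2) := by
      rw [inner_add_right, inner_sub_right, inner_neg_right, inner_smul_right, inner_add_right,
        inner_sub_right, inner_neg_right, inner_smul_right, real_inner_self_eq_norm_sq,
        real_inner_comm (R s) (W s), real_inner_comm (Z s) (W s)]
      ring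
    rw [e1]
    have h5 := hEup s
    have h6 : -ε * (‖R s‖ ^ 2 + ⟪W s, Z s⟫) ≤ -(2 * ε / 3) * E s := by nlinarith
    linarith
  set Φ : ℝ → ℝ := fun s => Real.exp (γ * s) * E s + K * m ^ 2 / γ * Real.exp (-(γ * s)) with hΦ
  have hdΦ : ∀ s, HasDerivAt Φ (Real.exp (γ * s) * γ * E s + Real.exp (γ * s) *
      (2 * ⟪R s, -(c • R s) - W s + g s⟫ + 2 * ⟪W s, R s⟫ +
      2 * ε * (⟪Z s, -(c • R s) - W s + g s⟫ + ⟪R s, R s⟫)) +
      K * m ^ 2 / γ * (Real.exp (-(γ * s)) * (-γ))) s := by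
    intro s
    have h1 : HasDerivAt (fun s => Real.exp (γ * s)) (Real.exp (γ * s) * γ) s := by
      have := ((hasDerivAt_id s).const_mul γ).exp
      simpa using this
    have h2 : HasDerivAt (fun s => Real.exp (-(γ * s))) (Real.exp (-(γ * s)) * (-γ)) s := by
      have := (((hasDerivAt_id s).const_mul γ).neg).exp
      simpa using this
    exact (h1.mul (hdE s)).add (h2.const_mul _)
  have hanti : AntitoneOn Φ (Ici 0) := by
    apply antitoneOn_of_deriv_nonpos (convex_Ici 0)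
    · exact fun s _ => (hdΦ s).continuousAt.continuousWithinAt
    · exact fun s _ => (hdΦ s).differentiableAt.differentiableWithinAt
    · intro s hs
      rw [interior_Ici] at hs
      have hs0 : 0 ≤ s := le_of_lt hs
      rw [(hdΦ s).deriv]
      have hg2 : ‖g s‖ ^ 2 ≤ m ^ 2 * (Real.exp (-(γ * s)) * Real.exp (-(γ * s))) := by
        have := pow_le_pow_left₀ (norm_nonneg _) (hg s hs0) 2
        calc ‖g s‖ ^ 2 ≤ _ := this
          _ = _ := by ring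
      have hexp : Real.exp (γ * s) * Real.exp (-(γ * s)) = 1 := by
        rw [← Real.exp_add]; simp
      have h7 : Real.exp (γ * s) * (2 * ⟪R s, -(c • R s) - W s + g s⟫ + 2 * ⟪W s, R s⟫ +
          2 * ε * (⟪Z s, -(c • R s) - W s + g s⟫ + ⟪R s, R s⟫)) ≤
          Real.exp (γ * s) * (-(2 * ε / 3) * E s + K * (m ^ 2 * (Real.exp (-(γ * s)) *
            Real.exp (-(γ * s))))) := by
        apply mul_le_mul_of_nonneg_left _ (Real.exp_pos _).le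
        have := mul_le_mul_of_nonneg_left hg2 hK
        linarith [hdE' s]
      have h8 : Real.exp (γ * s) * (-(2 * ε / 3) * E s + K * (m ^ 2 * (Real.exp (-(γ * s)) *
            Real.exp (-(γ * s))))) = -(2 * ε / 3) * (Real.exp (γ * s) * E s) +
            K * m ^ 2 * Real.exp (-(γ * s)) := by
        calc _ = -(2 * ε / 3) * (Real.exp (γ * s) * E s) + K * m ^ 2 * (Real.exp (γ * s) *
              Real.exp (-(γ * s))) * Real.exp (-(γ * s)) := by ring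
          _ = _ := by rw [hexp]; ring
      have h9 : K * m ^ 2 / γ * (Real.exp (-(γ * s)) * (-γ)) = -(K * m ^ 2 * Real.exp (-(γ * s))) := by
        field_simp
      have h10 : 0 ≤ Real.exp (γ * s) * E s := mul_nonneg (Real.exp_pos _).le (hE0 s)
      have h11 : (γ - 2 * ε / 3) * (Real.exp (γ * s) * E s) ≤ 0 :=
        mul_nonpos_of_nonpos_of_nonneg (by linarith) h10
      rw [h9]
      nlinarith
  intro s hs
  have hmain := hanti (self_mem_Ici) (show s ∈ Ici (0:ℝ) from hs) hs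
  simp only [hΦ, mul_zero, neg_zero, Real.exp_zero, one_mul, mul_one] at hmain
  have hexp : Real.exp (γ * s) * Real.exp (-(γ * s)) = 1 := by
    rw [← Real.exp_add]; simp
  have hpos : 0 < Real.exp (-(γ * s)) := Real.exp_pos _
  have hE1 : E s ≤ Real.exp (-(γ * s)) * (E 0 + K * m ^ 2 / γ) := by
    have h1 : Real.exp (γ * s) * E s ≤ E 0 + K * m ^ 2 / γ := by
      have : 0 ≤ K * m ^ 2 / γ * Real.exp (-(γ * s)) := by positivity
      linarith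
    calc E s = Real.exp (-(γ * s)) * (Real.exp (γ * s) * E s) := by
          rw [← mul_assoc, mul_comm (Real.exp (-(γ * s))), hexp, one_mul]
      _ ≤ _ := mul_le_mul_of_nonneg_left h1 hpos.le
  set S : ℝ := Real.sqrt ⟪W 0, Z 0⟫ + ‖R 0‖ + m with hS
  have hS0 : 0 ≤ S := by positivity
  have hSq : ‖R 0‖ ^ 2 + ⟪W 0, Z 0⟫ + m ^ 2 ≤ S ^ 2 := by
    have h1 := Real.sq_sqrt (hq0 0)
    have h2 := Real.sqrt_nonneg ⟪W 0, Z 0⟫
    have h3 := norm_nonneg (R 0)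
    have e : S ^ 2 = Real.sqrt ⟪W 0, Z 0⟫ ^ 2 + ‖R 0‖ ^ 2 + m ^ 2 +
        2 * (Real.sqrt ⟪W 0, Z 0⟫ * ‖R 0‖ + Real.sqrt ⟪W 0, Z 0⟫ * m + ‖R 0‖ * m) := by
      rw [hS]; ring
    rw [e, h1]
    have : 0 ≤ Real.sqrt ⟪W 0, Z 0⟫ * ‖R 0‖ + Real.sqrt ⟪W 0, Z 0⟫ * m + ‖R 0‖ * m := by positivity
    linarith
  have hKγ : 0 ≤ K / γ := by positivity
  have hsum : ‖R s‖ ^ 2 + ⟪W s, Z s⟫ ≤ Real.exp (-(γ * s)) * ((3 + 2 * K / γ) * S ^ 2) := by
    have h1 : 2 * (E 0 + K * m ^ 2 / γ) ≤ (3 + 2 * K / γ) * S ^ 2 := by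
      have h2 := hEup 0
      have h3 : 0 ≤ ‖R 0‖ ^ 2 + ⟪W 0, Z 0⟫ := by have := hq0 0; positivity
      have h4 : 3 * (‖R 0‖ ^ 2 + ⟪W 0, Z 0⟫) ≤ 3 * S ^ 2 := by nlinarith [sq_nonneg m]
      have h5 : 2 * (K / γ) * m ^ 2 ≤ 2 * (K / γ) * S ^ 2 := by
        apply mul_le_mul_of_nonneg_left _ (by positivity)
        linarith
      have e1 : K * m ^ 2 / γ = K / γ * m ^ 2 := by ring
      have e2 : (3 + 2 * K / γ) * S ^ 2 = 3 * S ^ 2 + 2 * (K / γ) * S ^ 2 := by ring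
      rw [e1, e2]; linarith
    calc ‖R s‖ ^ 2 + ⟪W s, Z s⟫ ≤ 2 * E s := by linarith [hElow s]
      _ ≤ 2 * (Real.exp (-(γ * s)) * (E 0 + K * m ^ 2 / γ)) := by linarith
      _ = Real.exp (-(γ * s)) * (2 * (E 0 + K * m ^ 2 / γ)) := by ring
      _ ≤ _ := mul_le_mul_of_nonneg_left h1 hpos.le
  have hCC : Real.sqrt ((3 + 2 * K / γ) * (1 + 1 / b)) ^ 2 = (3 + 2 * K / γ) * (1 + 1 / b) :=
    Real.sq_sqrt (by positivity)
  have hhalf : Real.exp (-(γ / 2 * s)) ^ 2 = Real.exp (-(γ * s)) := by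
    rw [← Real.exp_nat_mul]; congr 1; push_cast; ring
  have hfin : ∀ y : ℝ, 0 ≤ y → y ^ 2 ≤ Real.exp (-(γ * s)) * ((3 + 2 * K / γ) * S ^ 2) * (1 + 1 / b) →
      y ≤ Real.sqrt ((3 + 2 * K / γ) * (1 + 1 / b)) * S * Real.exp (-(γ / 2 * s)) := by
    intro y hy h
    apply le_of_sq_le_sq _ (by positivity)
    rw [mul_pow, mul_pow, hCC, hhalf]
    calc y ^ 2 ≤ _ := h
      _ = _ := by ring
  have hXpos : 0 ≤ Real.exp (-(γ * s)) * ((3 + 2 * K / γ) * S ^ 2) := by positivity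
  constructor
  · apply hfin _ (norm_nonneg _)
    have h1 : b * ‖Z s‖ ^ 2 ≤ Real.exp (-(γ * s)) * ((3 + 2 * K / γ) * S ^ 2) := by
      have := sq_nonneg ‖R s‖
      linarith [hq s]
    have h2 : ‖Z s‖ ^ 2 ≤ Real.exp (-(γ * s)) * ((3 + 2 * K / γ) * S ^ 2) * (1 / b) := by
      rw [mul_one_div, le_div_iff₀ hb]; linarith
    rw [mul_add, mul_one]; linarith
  · apply hfin _ (norm_nonneg _)
    have h1 : ‖R s‖ ^ 2 ≤ Real.exp (-(γ * s)) * ((3 + 2 * K / γ) * S ^ 2) := by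
      linarith [hq0 s]
    have h2 : 0 ≤ Real.exp (-(γ * s)) * ((3 + 2 * K / γ) * S ^ 2) * (1 / b) := by positivity
    rw [mul_add, mul_one]; linarith

end Pool.Agent.X231.DA
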